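import Mathlib
import Pool.Agent.Run7.h450.Q9
import Pool.Agent.Run7.h450.Q10
import Pool.Agent.Run7.h450.Q11

/-!
# The radius of comparison of fixed point algebras and crossed products, arbitrary actions

Both inequalities of Q1, for arbitrary actions of finite groups on simple unital C*-algebras, all
of whose quasitraces are traces, of stable rank one or with uniform property Gamma or with
complemented partitions of unity, and on simple unital C*-algebras whose quasitraces are the convex
combinations of finitely many traces.
-/

set_option autoImplicit false

namespace Pool.Agent.Results.MP_b55b7c_an.BothInequalities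

open Run7.h450
open scoped ENNReal

universe u v w w'

/-- Let `A` be an infinite-dimensional simple unital C*-algebra such that either `QT(A)` is the
convex hull of finitely many traces, or all quasitraces of `A` are traces and `A` has stable rank
one or uniform property Gamma or CPoU. Let `α` be any action of a finite group `G` on `A`. Then
`rc(A) ≤ rc(A^α)` and `rc(A) / card(G) ≤ rc(C*(G, A, α))`. -/
theorem result {A : Type u} [CStarAlgebra A] [PartialOrder A] [StarOrderedRing A]
    (simple : SimpleCStar A) (infinite : ¬ FiniteDimensional ℂ A)
    (traces : FinitelyManyTraces A ∨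
      (AllTraces A ∧ (StableRankOne A ∨ UniformGamma A ∨ CPoU A)))
    {G : Type v} [Group G] [Fintype G] (α : G →* (A ≃⋆ₐ[ℂ] A))
    {D : Type w} [CStarAlgebra D] [PartialOrder D] [StarOrderedRing D] (j : D →⋆ₐ[ℂ] A)
    (fixed : IsFixedPointAlgebra α j)
    {B : Type w'} [CStarAlgebra B] [PartialOrder B] [StarOrderedRing B]
    (crossed : CrossedProduct α B) :
    rc A ≤ rc D ∧ rc A / (Fintype.card G : ℝ≥0∞) ≤ rc B := by
  rcases traces with h | ⟨h, hGC⟩
  · exact ⟨fix_final fixed simple infinite h,
      ENNReal.div_le_of_le_mul' (cp_final simple infinite h crossed)⟩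
  · have hUC : ∀ N : ℕ, UC (SSt (D := A) N) := by
      rcases hGC with h1 | h1 | h1
      · exact uc_sr (du_of_sr h1)
      · exact uc_mat (pu_of_gamma h1)
      · exact uc_mat (pu_of_cpou h1)
    exact ⟨fix_finalg fixed simple infinite (qAll_of h) hUC,
      ENNReal.div_le_of_le_mul' (cp_finalg simple infinite (qAll_of h) hUC crossed)⟩

end Pool.Agent.Results.MP_b55b7c_an.BothInequalities
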